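import Pool.Agent.helper77.PV.SpecC

set_option autoImplicit false

/-!
# Row D0X of project pv: the kernel of the second boundary map
-/

open scoped Matrix Topology
open Filter

namespace Pool.Agent.PV

open Pool.Agent.CZ

theorem D0X_be (hBEN : BEN_stmt) (hFUN : FUN_stmt) (B : Type) [NormedRing B] [NormedAlgebra ℂ B]
    [CompleteSpace B] (be be' : K0 B →+ K1 C(UnitAddCircle, B)) (h : IsBe B be) (h' : IsBe B be')
    (z : K0 B) : be z = be' z := by
  have hid : Continuous (AlgHom.id ℂ B) := continuous_id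
  have hc : Continuous (cmpC UnitAddCircle (AlgHom.id ℂ B) hid).toRingHom := continuous_id
  have key := hBEN.1 B B (AlgHom.id ℂ B) hid be be' hc h h' z
  have e1 : k0map (AlgHom.id ℂ B).toRingHom z = z := hFUN.1 B z
  have e2 : k1map (cmpC UnitAddCircle (AlgHom.id ℂ B) hid).toRingHom hc (be z) = be z :=
    hFUN.2.2.2.1 C(UnitAddCircle, B) (be z)
  rw [e1, e2] at key
  exact key

/-- Row D0X. -/
theorem D0X (hD1E : D1E_stmt) (hD1N : D1N_stmt) (hD1K : D1K_stmt) (hBOT : BOT_stmt)
    (hBET : BET_stmt) (hBEN : BEN_stmt) (hHOF : HOF_stmt) (hFUN : FUN_stmt) (hK0G : K0G_stmt) :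
    D0X_stmt := by
  intro B A _ _ _ _ _ _ al io u c hZ d0 hd0 z hz
  obtain ⟨h, h', hi, cc, be, dl, de, hZl, -, hbe, hdl, hde, hd⟩ := hd0
  rw [hd] at hz
  obtain ⟨d1, hd1⟩ := hD1E B A al io u c hZ
  -- the value of the index at the base point
  have hel : ZMap (lal al h h') (cmpC UnitAddCircle io hi) (lu u) al io u (el B) (el A) :=
    { cf := el_cont B
      cF := el_cont A
      fal := fun _ => rfl
      fio := fun _ => rfl
      fu := rfl }
  have h1 : k0map (el B).toRingHom (dl (be z)) = 0 := by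
    rw [hD1N _ _ B A (lal al h h') (cmpC UnitAddCircle io hi) (lu u) cc al io u c (el B) (el A)
      (el_cont A) hZl hZ hel dl d1 hdl hd1 (be z), hBEN.2 A be hbe z, map_zero]
  have h2 : dl (be z) = 0 := hHOF B de hde _ h1 hz
  have hil : Continuous (cmpC UnitAddCircle io hi).toRingHom := by
    change Continuous fun f : C(UnitAddCircle, B) => (⟨io, hi⟩ : C(B, A)).comp f
    exact ContinuousMap.continuous_postcomp _
  obtain ⟨x, hx⟩ := hD1K _ _ (lal al h h') (cmpC UnitAddCircle io hi) (lu u) cc hil hZl dl hdl _ h2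
  obtain ⟨beB, dB, hbeB, -, -, -, hB⟩ := hBOT B
  obtain ⟨beA, dA, hbeA, hA1, hA2, -, -⟩ := hBOT A
  refine ⟨dB x, ?_⟩
  have h3 : k1map (cmpC UnitAddCircle io hi).toRingHom hil
      (k1map (cl B).toRingHom (cl_cont B) (k1map (el B).toRingHom (el_cont B) x)) =
      k1map (cl A).toRingHom (cl_cont A) (k1map io.toRingHom hi
        (k1map (el B).toRingHom (el_cont B) x)) := by
    have hc1 : Continuous ((cmpC UnitAddCircle io hi).toRingHom.comp (cl B).toRingHom) :=
      hil.comp (cl_cont B)
    have hc2 : Continuous ((cl A).toRingHom.comp io.toRingHom) := (cl_cont A).comp hi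
    have e1 := hFUN.2.2.2.2 B C(UnitAddCircle, B) C(UnitAddCircle, A) (cl B).toRingHom
      (cmpC UnitAddCircle io hi).toRingHom (cl_cont B) hil hc1
      (k1map (el B).toRingHom (el_cont B) x)
    have e2 := hFUN.2.2.2.2 B A C(UnitAddCircle, A) io.toRingHom (cl A).toRingHom hi (cl_cont A)
      hc2 (k1map (el B).toRingHom (el_cont B) x)
    rw [← e1, ← e2]
    rfl
  have h4 : k1map (cmpC UnitAddCircle io hi).toRingHom hil (beB (dB x)) =
      beA (k0map io.toRingHom (dB x)) := hBEN.1 B A io hi beB beA hil hbeB hbeA (dB x)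
  calc z = dA (beA z) := (hA1 z).symm
    _ = dA (be z) := by rw [D0X_be hBEN hFUN A be beA hbe hbeA z]
    _ = dA (k1map (cmpC UnitAddCircle io hi).toRingHom hil x) := by rw [← hx]
    _ = dA (k1map (cmpC UnitAddCircle io hi).toRingHom hil
        (k1map (cl B).toRingHom (cl_cont B) (k1map (el B).toRingHom (el_cont B) x) +
          beB (dB x))) := by rw [← hB x]
    _ = k0map io.toRingHom (dB x) := by rw [map_add, h3, h4, map_add, hA2, hA1, zero_add]

end Pool.Agent.PV
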