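import Pool.Agent.helper77.PV.SpecB

set_option autoImplicit false

/-!
# Row INU of project pv: the index is unique
-/

open scoped Matrix Topology
open Filter

namespace Pool.Agent.PV

open Pool.Agent.CZ

attribute [local instance] Matrix.linftyOpNormedRing Matrix.linftyOpNormedAlgebra

section

variable {B A : Type} [NormedRing B] [NormedAlgebra ℂ B] [NormedRing A] [NormedAlgebra ℂ A]
  {ι : Type} [Fintype ι] [DecidableEq ι]

/-- the data of an index value -/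
def INU_D (al : B ≃ₐ[ℂ] B) (io : B →ₐ[ℂ] A) (u : Aˣ) (c : ℤ → A →ₗ[ℂ] B) (g : (Matrix ι ι A)ˣ)
    (z : K0 B) (N d : ℕ) (x : ℕ → Matrix ι ι B) : Prop :=
  ∃ (L : (Matrix (Fin d × ι) (Fin d × ι) A)ˣ)
    (h : qL al c (bL d x) L * qL al c (bL d x) L = qL al c (bL d x) L), 1 ≤ d ∧
    (∀ k, d < k → x k = 0) ∧
    ‖1 - ((g⁻¹ : (Matrix ι ι A)ˣ) : Matrix ι ι A) *
      (pX io u x d * ((uM ι u ^ (-(N : ℤ)) : (Matrix ι ι A)ˣ) : Matrix ι ι A))‖ < 1 ∧
    IsLin io u (aL d x) (bL d x) L ∧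
    z = k0 (qL al c (bL d x) L) h - (N * Fintype.card ι) • unitCls B

theorem INU_unit [CompleteSpace A] (g v : (Matrix ι ι A)ˣ) (X : Matrix ι ι A)
    (h : ‖1 - ((g⁻¹ : (Matrix ι ι A)ˣ) : Matrix ι ι A) * (X * (v : Matrix ι ι A))‖ < 1) :
    IsUnit X := by
  have hc : @CompleteSpace (Matrix ι ι A)
      ((Matrix.linftyOpNormedRing (n := ι) (α := A)).toMetricSpace.toPseudoMetricSpace.toUniformSpace) :=
    (inferInstance : CompleteSpace (ι → ι → A))
  have hs : HasSummableGeomSeries (Matrix ι ι A) :=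
    @instHasSummableGeomSeriesOfCompleteSpace (Matrix ι ι A) Matrix.linftyOpNormedRing hc
  have h1 : IsUnit (((g⁻¹ : (Matrix ι ι A)ˣ) : Matrix ι ι A) * (X * (v : Matrix ι ι A))) := by
    have := isUnit_one_sub_of_norm_lt_one h
    rwa [sub_sub_cancel] at this
  have h2 : X = (g : Matrix ι ι A) * (((g⁻¹ : (Matrix ι ι A)ˣ) : Matrix ι ι A) *
      (X * (v : Matrix ι ι A))) * ((v⁻¹ : (Matrix ι ι A)ˣ) : Matrix ι ι A) := by
    rw [Units.mul_inv_cancel_left, Units.mul_inv_cancel_right]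
  rw [h2]
  exact (g.isUnit.mul h1).mul (v⁻¹).isUnit

theorem INU_pX_succ (io : B →ₐ[ℂ] A) (u : Aˣ) (x : ℕ → Matrix ι ι B) (d : ℕ)
    (h : x (d + 1) = 0) : pX io u x (d + 1) = pX io u x d := by
  unfold pX
  rw [Finset.sum_range_succ, h, Matrix.map_zero _ (map_zero io), zero_mul, add_zero]

theorem INU_pX_shx (io : B →ₐ[ℂ] A) (u : Aˣ) (x : ℕ → Matrix ι ι B) (d : ℕ) :
    pX io u (shx x) (d + 1) = pX io u x d * (uM ι u : Matrix ι ι A) := by
  unfold pX
  rw [Finset.sum_range_succ', Finset.sum_mul]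
  have h0 : (shx x 0).map io = (0 : Matrix ι ι A) := Matrix.map_zero _ (map_zero io)
  rw [h0, zero_mul, add_zero]
  refine Finset.sum_congr rfl fun k _ => ?_
  change (x k).map io * _ = _
  rw [pow_succ, Units.val_mul, mul_assoc]

theorem INU_pX_lin (io : B →ₐ[ℂ] A) (u : Aˣ) (x y : ℕ → Matrix ι ι B) (s t : ℂ) (d : ℕ) :
    pX io u (fun k => s • x k + t • y k) d = s • pX io u x d + t • pX io u y d := by
  unfold pX
  rw [Finset.smul_sum, Finset.smul_sum, ← Finset.sum_add_distrib]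
  refine Finset.sum_congr rfl fun k _ => ?_
  have h : (s • x k + t • y k).map io = s • (x k).map io + t • (y k).map io := by
    ext i j
    simp [Matrix.map_apply, Matrix.add_apply, Matrix.smul_apply, map_add, map_smul]
  rw [h, add_mul, smul_mul_assoc, smul_mul_assoc]

variable [CompleteSpace B] [CompleteSpace A]

theorem INU_pad (hPAD : PAD_stmt) (hQDM : QDM_stmt) (hLFA : LFA_stmt) {al : B ≃ₐ[ℂ] B}
    {io : B →ₐ[ℂ] A} {u : Aˣ} {c : ℤ → A →ₗ[ℂ] B} (hZ : ZPair al io u c) {g : (Matrix ι ι A)ˣ}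
    {z : K0 B} {N d : ℕ} {x : ℕ → Matrix ι ι B} (h : INU_D al io u c g z N d x) :
    INU_D al io u c g z N (d + 1) x := by
  obtain ⟨L, hq, hd, hx, hn, hL, hz⟩ := h
  have hx1 : x (d + 1) = 0 := hx _ (Nat.lt_succ_self d)
  obtain ⟨X, hX⟩ := INU_unit g _ _ hn
  have hX' : (X : Matrix ι ι A) = pX io u x (d + 1) := by rw [hX, INU_pX_succ io u x d hx1]
  obtain ⟨L', hL', -⟩ := hLFA B A al io u c hZ ι (d + 1) x X (by omega) hX'
  have hq' := (hQDM B A al io u c hZ _ _ _ L' hL').qq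
  refine ⟨L', hq', by omega, fun k hk => hx k (by omega), ?_, hL', ?_⟩
  · rw [INU_pX_succ io u x d hx1]
    exact hn
  · rw [hz, hPAD B A al io u c hZ ι d x hd hx1 L L' hL hL' hq hq']

theorem INU_shift (hSHF : SHF_stmt) (hQDM : QDM_stmt) (hLFA : LFA_stmt) {al : B ≃ₐ[ℂ] B}
    {io : B →ₐ[ℂ] A} {u : Aˣ} {c : ℤ → A →ₗ[ℂ] B} (hZ : ZPair al io u c) {g : (Matrix ι ι A)ˣ}
    {z : K0 B} {N d : ℕ} {x : ℕ → Matrix ι ι B} (h : INU_D al io u c g z N d x) :
    INU_D al io u c g z (N + 1) (d + 1) (shx x) := by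
  obtain ⟨L, hq, hd, hx, hn, hL, hz⟩ := h
  obtain ⟨X, hX⟩ := INU_unit g _ _ hn
  have hX' : ((X * uM ι u : (Matrix ι ι A)ˣ) : Matrix ι ι A) = pX io u (shx x) (d + 1) := by
    rw [Units.val_mul, hX, INU_pX_shx]
  obtain ⟨L', hL', -⟩ := hLFA B A al io u c hZ ι (d + 1) (shx x) _ (by omega) hX'
  have hq' := (hQDM B A al io u c hZ _ _ _ L' hL').qq
  refine ⟨L', hq', by omega, ?_, ?_, hL', ?_⟩
  · intro k hk
    obtain ⟨k, rfl⟩ : ∃ k', k = k' + 1 := ⟨k - 1, by omega⟩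
    exact hx k (by omega)
  · have h1 : pX io u (shx x) (d + 1) *
        ((uM ι u ^ (-((N + 1 : ℕ) : ℤ)) : (Matrix ι ι A)ˣ) : Matrix ι ι A) =
        pX io u x d * ((uM ι u ^ (-(N : ℤ)) : (Matrix ι ι A)ˣ) : Matrix ι ι A) := by
      have h2 : uM ι u ^ (-(N : ℤ)) = uM ι u * uM ι u ^ (-((N + 1 : ℕ) : ℤ)) := by
        rw [← zpow_one_add]
        congr 1
        push_cast
        ring
      rw [INU_pX_shx, h2, Units.val_mul, mul_assoc]
    rw [h1]
    exact hn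
  · rw [hz, hSHF B A al io u c hZ ι d x hd L L' hL hL' hq hq', Nat.add_mul, one_mul, add_nsmul]
    abel

theorem INU_pads (hPAD : PAD_stmt) (hQDM : QDM_stmt) (hLFA : LFA_stmt) {al : B ≃ₐ[ℂ] B}
    {io : B →ₐ[ℂ] A} {u : Aˣ} {c : ℤ → A →ₗ[ℂ] B} (hZ : ZPair al io u c) {g : (Matrix ι ι A)ˣ}
    {z : K0 B} {N d : ℕ} {x : ℕ → Matrix ι ι B} (h : INU_D al io u c g z N d x) (k : ℕ) :
    INU_D al io u c g z N (d + k) x := by
  induction k with
  | zero => exact h
  | succ k ih => exact INU_pad hPAD hQDM hLFA hZ ih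

theorem INU_shifts (hSHF : SHF_stmt) (hQDM : QDM_stmt) (hLFA : LFA_stmt) {al : B ≃ₐ[ℂ] B}
    {io : B →ₐ[ℂ] A} {u : Aˣ} {c : ℤ → A →ₗ[ℂ] B} (hZ : ZPair al io u c) {g : (Matrix ι ι A)ˣ}
    {z : K0 B} {N d : ℕ} {x : ℕ → Matrix ι ι B} (h : INU_D al io u c g z N d x) (k : ℕ) :
    ∃ y, INU_D al io u c g z (N + k) (d + k) y := by
  induction k with
  | zero => exact ⟨x, h⟩
  | succ k ih =>
    obtain ⟨y, hy⟩ := ih
    exact ⟨shx y, INU_shift hSHF hQDM hLFA hZ hy⟩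

theorem INU_same (hQCL : QCL_stmt) (hLFA : LFA_stmt) {al : B ≃ₐ[ℂ] B}
    {io : B →ₐ[ℂ] A} {u : Aˣ} {c : ℤ → A →ₗ[ℂ] B} (hZ : ZPair al io u c) {g : (Matrix ι ι A)ˣ}
    {z z' : K0 B} {N d : ℕ} {x x' : ℕ → Matrix ι ι B} (h : INU_D al io u c g z N d x)
    (h' : INU_D al io u c g z' N d x') : z = z' := by
  obtain ⟨L, hq, hd, hx, hn, hL, hz⟩ := h
  obtain ⟨L', hq', -, hx', hn', hL', hz'⟩ := h'
  -- the segment
  set xs : unitInterval → ℕ → Matrix ι ι B := fun t k =>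
    ((1 - (t : ℝ) : ℝ) : ℂ) • x k + (((t : ℝ)) : ℂ) • x' k with hxs
  have hxs0 : xs 0 = x := by
    funext k
    simp [hxs]
  have hxs1 : xs 1 = x' := by
    funext k
    simp [hxs]
  have hU : ∀ t, IsUnit (pX io u (xs t) d) := by
    intro t
    refine INU_unit g (uM ι u ^ (-(N : ℤ))) _ ?_
    have e : 1 - ((g⁻¹ : (Matrix ι ι A)ˣ) : Matrix ι ι A) *
        (pX io u (xs t) d * ((uM ι u ^ (-(N : ℤ)) : (Matrix ι ι A)ˣ) : Matrix ι ι A)) =
        ((1 - (t : ℝ) : ℝ) : ℂ) • (1 - ((g⁻¹ : (Matrix ι ι A)ˣ) : Matrix ι ι A) *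
        (pX io u x d * ((uM ι u ^ (-(N : ℤ)) : (Matrix ι ι A)ˣ) : Matrix ι ι A))) +
        (((t : ℝ)) : ℂ) • (1 - ((g⁻¹ : (Matrix ι ι A)ˣ) : Matrix ι ι A) *
        (pX io u x' d * ((uM ι u ^ (-(N : ℤ)) : (Matrix ι ι A)ˣ) : Matrix ι ι A))) := by
      have e1 : pX io u (xs t) d = ((1 - (t : ℝ) : ℝ) : ℂ) • pX io u x d +
          (((t : ℝ)) : ℂ) • pX io u x' d := INU_pX_lin io u x x' _ _ d
      rw [e1, add_mul, smul_mul_assoc, smul_mul_assoc, mul_add, mul_smul_comm, mul_smul_comm,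
        smul_sub, smul_sub]
      have e2 : (1 : Matrix ι ι A) = ((1 - (t : ℝ) : ℝ) : ℂ) • (1 : Matrix ι ι A) +
          (((t : ℝ)) : ℂ) • (1 : Matrix ι ι A) := by
        rw [← add_smul]
        simp
      nth_rewrite 1 [e2]
      abel
    rw [e]
    refine lt_of_le_of_lt (norm_add_le _ _) ?_
    rw [norm_smul, norm_smul, Complex.norm_real, Complex.norm_real, Real.norm_of_nonneg t.2.1,
      Real.norm_of_nonneg (sub_nonneg.2 t.2.2)]
    rcases eq_or_lt_of_le t.2.1 with ht | ht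
    · rw [← ht]
      simpa using hn
    · have h1 := mul_lt_mul_of_pos_left hn' ht
      have h2 := mul_le_mul_of_nonneg_left hn.le (sub_nonneg.2 t.2.2)
      linarith
  have hex : ∀ t, ∃ M : (Matrix (Fin d × ι) (Fin d × ι) A)ˣ,
      IsLin io u (aL d (xs t)) (bL d (xs t)) M := by
    intro t
    obtain ⟨X, hX⟩ := hU t
    obtain ⟨M, hM, -⟩ := hLFA B A al io u c hZ ι d (xs t) X hd hX
    exact ⟨M, hM⟩
  choose M hM using hex
  have hc : ∀ k i j, Continuous fun t => xs t k i j := by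
    intro k i j
    change Continuous fun t : unitInterval => ((1 - (t : ℝ) : ℝ) : ℂ) • x k i j +
      (((t : ℝ)) : ℂ) • x' k i j
    fun_prop
  have hca : Continuous fun t => aL d (xs t) := by
    refine continuous_matrix fun p q => ?_
    change Continuous fun t => if p.1.val = 0 then xs t q.1.val p.2 q.2 else if p = q then 1 else 0
    split_ifs with h1
    · exact hc _ _ _
    · exact continuous_const
    · exact continuous_const
  have hcb : Continuous fun t => bL d (xs t) := by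
    refine continuous_matrix fun p q => ?_
    change Continuous fun t => if p.1.val = 0 then
      (if q.1.val + 1 = d then xs t d p.2 q.2 else 0) else
      if q.1.val + 1 = p.1.val ∧ p.2 = q.2 then -1 else 0
    split_ifs with h1
    · exact hc _ _ _
    · exact continuous_const
    · exact continuous_const
    · exact continuous_const
  have hM0 : M 0 = L := by
    refine Units.ext ?_
    have h1 := hM 0
    rw [hxs0] at h1
    exact h1.trans hL.symm
  have hM1 : M 1 = L' := by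
    refine Units.ext ?_
    have h1 := hM 1
    rw [hxs1] at h1
    exact h1.trans hL'.symm
  have key := hQCL B A al io u c hZ (Fin d × ι) ⟨fun t => aL d (xs t), hca⟩
    ⟨fun t => bL d (xs t), hcb⟩ M hM
  simp only [ContinuousMap.coe_mk, hxs0, hxs1, hM0, hM1] at key
  rw [hz, hz', key hq hq']

end

/-- Row INU. -/
theorem INU (hPAD : PAD_stmt) (hSHF : SHF_stmt) (hQCL : QCL_stmt) (hQDM : QDM_stmt)
    (hLFA : LFA_stmt) : INU_stmt := by
  intro B A _ _ _ _ _ _ al io u c hZ ι _ _ g z z' h h'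
  obtain ⟨N, d, x, h1⟩ := h
  obtain ⟨N', d', x', h2⟩ := h'
  have h1' : INU_D al io u c g z N d x := h1
  have h2' : INU_D al io u c g z' N' d' x' := h2
  obtain ⟨y, hy⟩ := INU_shifts hSHF hQDM hLFA hZ h1' N'
  obtain ⟨y', hy'⟩ := INU_shifts hSHF hQDM hLFA hZ h2' N
  have h3 := INU_pads hPAD hQDM hLFA hZ hy (d' + N)
  have h4 := INU_pads hPAD hQDM hLFA hZ hy' (d + N')
  have e1 : N' + N = N + N' := by omega
  have e2 : d' + N + (d + N') = d + N' + (d' + N) := by omega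
  rw [e1, e2] at h4
  exact INU_same hQCL hLFA hZ h3 h4

end Pool.Agent.PV
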