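import Pool.Agent.helper77.PV.SpecA

set_option autoImplicit false

/-!
# Row K0Q of project pv: equality in the Grothendieck group of idempotents
-/

open scoped Matrix Topology
open Filter

namespace Pool.Agent.PV

open Pool.Agent.CZ

section

variable {A : Type} [Ring A]

/-- two idempotent matrices are equivalent -/
def K0Q_EV {ι κ : Type} [Fintype ι] [Fintype κ] (E : Matrix ι ι A) (F : Matrix κ κ A) : Prop :=
  (∃ (x : Matrix ι κ A) (y : Matrix κ ι A), x * y = E ∧ y * x = F) ∧ E * E = E ∧ F * F = F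

theorem K0Q_refl {ι : Type} [Fintype ι] {E : Matrix ι ι A} (hE : E * E = E) : K0Q_EV E E :=
  ⟨⟨E, E, hE, hE⟩, hE, hE⟩

theorem K0Q_symm {ι κ : Type} [Fintype ι] [Fintype κ] {E : Matrix ι ι A} {F : Matrix κ κ A}
    (h : K0Q_EV E F) : K0Q_EV F E := by
  obtain ⟨⟨x, y, h1, h2⟩, hE, hF⟩ := h
  exact ⟨⟨y, x, h2, h1⟩, hF, hE⟩

theorem K0Q_trans {ι κ μ : Type} [Fintype ι] [Fintype κ] [Fintype μ] {E : Matrix ι ι A}
    {F : Matrix κ κ A} {G : Matrix μ μ A} (h : K0Q_EV E F) (h' : K0Q_EV F G) : K0Q_EV E G := by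
  obtain ⟨⟨x, y, h1, h2⟩, hE, hF⟩ := h
  obtain ⟨⟨u, v, h3, h4⟩, -, hG⟩ := h'
  refine ⟨⟨x * u, v * y, ?_, ?_⟩, hE, hG⟩
  · calc x * u * (v * y) = x * (u * v) * y := by simp only [Matrix.mul_assoc]
      _ = x * (y * x) * y := by rw [h3, h2]
      _ = (x * y) * (x * y) := by simp only [Matrix.mul_assoc]
      _ = E := by rw [h1, hE]
  · calc v * y * (x * u) = v * (y * x) * u := by simp only [Matrix.mul_assoc]
      _ = v * (u * v) * u := by rw [h3, h2]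
      _ = (v * u) * (v * u) := by simp only [Matrix.mul_assoc]
      _ = G := by rw [h4, hG]

theorem K0Q_idem {ι κ : Type} [Fintype ι] [Fintype κ] {E : Matrix ι ι A} {F : Matrix κ κ A}
    (hE : E * E = E) (hF : F * F = F) :
    Matrix.fromBlocks E 0 0 F * Matrix.fromBlocks E 0 0 F = Matrix.fromBlocks E 0 0 F := by
  rw [Matrix.fromBlocks_multiply]
  simp [hE, hF]

theorem K0Q_sum {ι κ ι' κ' : Type} [Fintype ι] [Fintype κ] [Fintype ι'] [Fintype κ']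
    {E : Matrix ι ι A} {F : Matrix κ κ A} {E' : Matrix ι' ι' A} {F' : Matrix κ' κ' A}
    (h : K0Q_EV E F) (h' : K0Q_EV E' F') :
    K0Q_EV (Matrix.fromBlocks E 0 0 E') (Matrix.fromBlocks F 0 0 F') := by
  obtain ⟨⟨x, y, h1, h2⟩, hE, hF⟩ := h
  obtain ⟨⟨x', y', h3, h4⟩, hE', hF'⟩ := h'
  refine ⟨⟨Matrix.fromBlocks x 0 0 x', Matrix.fromBlocks y 0 0 y', ?_, ?_⟩, K0Q_idem hE hE',
    K0Q_idem hF hF'⟩
  · rw [Matrix.fromBlocks_multiply]
    simp [h1, h3]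
  · rw [Matrix.fromBlocks_multiply]
    simp [h2, h4]

theorem K0Q_comm {ι κ : Type} [Fintype ι] [Fintype κ] {E : Matrix ι ι A} {F : Matrix κ κ A}
    (hE : E * E = E) (hF : F * F = F) :
    K0Q_EV (Matrix.fromBlocks E 0 0 F) (Matrix.fromBlocks F 0 0 E) := by
  refine ⟨⟨Matrix.fromBlocks 0 E F 0, Matrix.fromBlocks 0 F E 0, ?_, ?_⟩, K0Q_idem hE hF,
    K0Q_idem hF hE⟩
  · rw [Matrix.fromBlocks_multiply]
    simp [hE, hF]
  · rw [Matrix.fromBlocks_multiply]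
    simp [hE, hF]

theorem K0Q_reindex {ι κ : Type} [Fintype ι] [Fintype κ] (f : ι ≃ κ) {E : Matrix ι ι A}
    (hE : E * E = E) : K0Q_EV E (E.submatrix f.symm f.symm) := by
  have h1 : E.submatrix f.symm f.symm * E.submatrix f.symm f.symm = E.submatrix f.symm f.symm := by
    rw [Matrix.submatrix_mul_equiv, hE]
  refine ⟨⟨E.submatrix id f.symm, E.submatrix f.symm id, ?_, ?_⟩, hE, h1⟩
  · rw [Matrix.submatrix_mul_equiv, hE, Matrix.submatrix_id_id]
  · have := Matrix.submatrix_mul_equiv E E f.symm (Equiv.refl ι) f.symm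
    rw [hE] at this
    exact this

theorem K0Q_assoc {ι κ μ : Type} [Fintype ι] [Fintype κ] [Fintype μ] {E : Matrix ι ι A}
    {F : Matrix κ κ A} {G : Matrix μ μ A} (hE : E * E = E) (hF : F * F = F) (hG : G * G = G) :
    K0Q_EV (Matrix.fromBlocks (Matrix.fromBlocks E 0 0 F) 0 0 G)
      (Matrix.fromBlocks E 0 0 (Matrix.fromBlocks F 0 0 G)) := by
  have h := K0Q_reindex (Equiv.sumAssoc ι κ μ) (K0Q_idem (K0Q_idem hE hF) hG)
  have e : (Matrix.fromBlocks (Matrix.fromBlocks E 0 0 F) 0 0 G).submatrix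
      (Equiv.sumAssoc ι κ μ).symm (Equiv.sumAssoc ι κ μ).symm =
      Matrix.fromBlocks E 0 0 (Matrix.fromBlocks F 0 0 G) := by
    ext i j
    rcases i with i | i | i <;> rcases j with j | j | j <;> rfl
  rw [e] at h
  exact h

theorem K0Q_zero {ι κ : Type} [Fintype ι] [Fintype κ] {E : Matrix ι ι A} (hE : E * E = E) :
    K0Q_EV (Matrix.fromBlocks E 0 0 (0 : Matrix κ κ A)) E := by
  refine ⟨⟨Matrix.fromRows E 0, Matrix.fromCols E 0, ?_, ?_⟩, K0Q_idem hE (by simp), hE⟩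
  · rw [Matrix.fromRows_mul_fromCols]
    simp [hE]
  · rw [Matrix.fromCols_mul_fromRows]
    simp [hE]

theorem K0Q_compl {ι : Type} [Fintype ι] [DecidableEq ι] {E : Matrix ι ι A} (hE : E * E = E) :
    K0Q_EV (Matrix.fromBlocks (1 - E) 0 0 E) (1 : Matrix ι ι A) := by
  have h1 : (1 - E) * E = 0 := by rw [sub_mul, one_mul, hE, sub_self]
  have h2 : E * (1 - E) = 0 := by rw [mul_sub, mul_one, hE, sub_self]
  have h3 : (1 - E) * (1 - E) = 1 - E := by rw [mul_sub, mul_one, h1, sub_zero]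
  refine ⟨⟨Matrix.fromRows (1 - E) E, Matrix.fromCols (1 - E) E, ?_, ?_⟩, K0Q_idem h3 hE, by simp⟩
  · rw [Matrix.fromRows_mul_fromCols, h1, h2, h3, hE]
  · rw [Matrix.fromCols_mul_fromRows, h3, hE]
    exact sub_add_cancel 1 E

theorem K0Q_orth {ι : Type} [Fintype ι] {e f : Matrix ι ι A} (he : e * e = e) (hf : f * f = f)
    (h1 : e * f = 0) (h2 : f * e = 0) (hs : (e + f) * (e + f) = e + f) :
    K0Q_EV (Matrix.fromBlocks e 0 0 f) (e + f) := by
  refine ⟨⟨Matrix.fromRows e f, Matrix.fromCols e f, ?_, ?_⟩, K0Q_idem he hf, hs⟩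
  · rw [Matrix.fromRows_mul_fromCols, h1, h2, he, hf]
  · rw [Matrix.fromCols_mul_fromRows, he, hf]

/-- the block sum -/
def K0Q_add (p q : IdemMat A) : IdemMat A :=
  ⟨p.n + q.n, (Matrix.fromBlocks p.e 0 0 q.e).submatrix finSumFinEquiv.symm finSumFinEquiv.symm, by
    rw [Matrix.submatrix_mul_equiv, K0Q_idem p.idem q.idem]⟩

theorem K0Q_adde (p q : IdemMat A) : K0Q_EV (Matrix.fromBlocks p.e 0 0 q.e) (K0Q_add p q).e :=
  K0Q_reindex finSumFinEquiv (K0Q_idem p.idem q.idem)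

variable (A)

/-- equivalence of idempotent matrices -/
def K0Q_setoid : Setoid (IdemMat A) where
  r p q := K0Q_EV p.e q.e
  iseqv := ⟨fun p => K0Q_refl p.idem, fun h => K0Q_symm h, fun h h' => K0Q_trans h h'⟩

/-- the monoid of the classes of idempotent matrices -/
def K0Q_M : Type := Quotient (K0Q_setoid A)

variable {A}

/-- the class of an idempotent matrix -/
def K0Q_mk (p : IdemMat A) : K0Q_M A := Quotient.mk (K0Q_setoid A) p

theorem K0Q_sound {p q : IdemMat A} (h : K0Q_EV p.e q.e) : K0Q_mk p = K0Q_mk q :=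
  Quotient.sound (s := K0Q_setoid A) h

theorem K0Q_exact {p q : IdemMat A} (h : K0Q_mk p = K0Q_mk q) : K0Q_EV p.e q.e :=
  Quotient.exact (s := K0Q_setoid A) h

instance K0Q_instAdd : Add (K0Q_M A) :=
  ⟨Quotient.map₂ K0Q_add fun p p' hp q q' hq =>
    K0Q_trans (K0Q_symm (K0Q_adde p q)) (K0Q_trans (K0Q_sum hp hq) (K0Q_adde p' q'))⟩

theorem K0Q_mk_add (p q : IdemMat A) : K0Q_mk (K0Q_add p q) = K0Q_mk p + K0Q_mk q := rfl

instance K0Q_instZero : Zero (K0Q_M A) := ⟨K0Q_mk ⟨0, 0, by simp⟩⟩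

instance K0Q_instMonoid : AddCommMonoid (K0Q_M A) where
  add_assoc := by
    rintro ⟨p⟩ ⟨q⟩ ⟨r⟩
    refine K0Q_sound (p := K0Q_add (K0Q_add p q) r) (q := K0Q_add p (K0Q_add q r)) ?_
    refine K0Q_trans (K0Q_symm (K0Q_adde _ _)) ?_
    refine K0Q_trans (K0Q_sum (K0Q_symm (K0Q_adde p q)) (K0Q_refl r.idem)) ?_
    refine K0Q_trans (K0Q_assoc p.idem q.idem r.idem) ?_
    exact K0Q_trans (K0Q_sum (K0Q_refl p.idem) (K0Q_adde q r)) (K0Q_adde _ _)
  zero_add := by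
    rintro ⟨p⟩
    refine K0Q_sound (p := K0Q_add ⟨0, 0, by simp⟩ p) (q := p) ?_
    refine K0Q_trans (K0Q_symm (K0Q_adde _ _)) ?_
    exact K0Q_trans (K0Q_comm (by simp) p.idem) (K0Q_zero p.idem)
  add_zero := by
    rintro ⟨p⟩
    refine K0Q_sound (p := K0Q_add p ⟨0, 0, by simp⟩) (q := p) ?_
    exact K0Q_trans (K0Q_symm (K0Q_adde _ _)) (K0Q_zero p.idem)
  add_comm := by
    rintro ⟨p⟩ ⟨q⟩
    refine K0Q_sound (p := K0Q_add p q) (q := K0Q_add q p) ?_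
    exact K0Q_trans (K0Q_symm (K0Q_adde _ _)) (K0Q_trans (K0Q_comm p.idem q.idem) (K0Q_adde _ _))
  nsmul := nsmulRec

/-- the map to the group completion -/
noncomputable def K0Q_hom (A : Type) [Ring A] : K0 A →+ Algebra.GrothendieckAddGroup (K0Q_M A) :=
  QuotientAddGroup.lift _ (FreeAbelianGroup.lift
    (fun p : IdemMat A => Algebra.GrothendieckAddGroup.of (K0Q_mk p))) (by
    rw [AddSubgroup.closure_le]
    rintro z (⟨p, q, ⟨x, y, h1, h2⟩, rfl⟩ | ⟨n, e, f, he, hf, hs, hef, hfe, rfl⟩)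
    · change (FreeAbelianGroup.lift
        (fun p : IdemMat A => Algebra.GrothendieckAddGroup.of (K0Q_mk p))) _ = 0
      rw [map_sub, FreeAbelianGroup.lift_apply_of, FreeAbelianGroup.lift_apply_of, sub_eq_zero]
      rw [K0Q_sound ⟨⟨x, y, h1, h2⟩, p.idem, q.idem⟩]
    · change (FreeAbelianGroup.lift
        (fun p : IdemMat A => Algebra.GrothendieckAddGroup.of (K0Q_mk p))) _ = 0
      rw [map_sub, map_sub, FreeAbelianGroup.lift_apply_of, FreeAbelianGroup.lift_apply_of,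
        FreeAbelianGroup.lift_apply_of]
      have h : K0Q_mk (⟨n, e + f, hs⟩ : IdemMat A) = K0Q_mk ⟨n, e, he⟩ + K0Q_mk ⟨n, f, hf⟩ := by
        rw [← K0Q_mk_add]
        refine K0Q_sound ?_
        exact K0Q_trans (K0Q_symm (K0Q_orth he hf hef hfe hs)) (K0Q_adde ⟨n, e, he⟩ ⟨n, f, hf⟩)
      rw [h, map_add]
      abel)

theorem K0Q_hom_cls (p : IdemMat A) :
    K0Q_hom A (cls p) = Algebra.GrothendieckAddGroup.of (K0Q_mk p) :=
  FreeAbelianGroup.lift_apply_of _ _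

end

/-- Row K0Q. -/
theorem K0Q : K0Q_stmt := by
  intro A _ n m e f he hf h
  have h1 := congrArg (K0Q_hom A) h
  rw [K0Q_hom_cls, K0Q_hom_cls] at h1
  obtain ⟨c, hc⟩ := ((AddLocalization.addMonoidOf
    (⊤ : AddSubmonoid (K0Q_M A))).eq_iff_exists).1 h1
  obtain ⟨r, hr0⟩ : ∃ r, K0Q_mk r = (c : K0Q_M A) := Quotient.exists_rep (c : K0Q_M A)
  rw [← hr0] at hc
  have h2 : K0Q_EV (K0Q_add r ⟨n, e, he⟩).e (K0Q_add r ⟨m, f, hf⟩).e :=
    K0Q_exact (p := K0Q_add r ⟨n, e, he⟩) (q := K0Q_add r ⟨m, f, hf⟩) hc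
  have h3 : K0Q_EV (Matrix.fromBlocks r.e 0 0 e) (Matrix.fromBlocks r.e 0 0 f) :=
    K0Q_trans (K0Q_adde r ⟨n, e, he⟩) (K0Q_trans h2 (K0Q_symm (K0Q_adde r ⟨m, f, hf⟩)))
  have hr : (1 - r.e) * (1 - r.e) = 1 - r.e := by
    rw [mul_sub, mul_one, sub_mul, one_mul, r.idem, sub_self, sub_zero]
  have key : ∀ (l : ℕ) (g : Matrix (Fin l) (Fin l) A), g * g = g →
      K0Q_EV (Matrix.fromBlocks g 0 0 (1 : Matrix (Fin r.n) (Fin r.n) A))
        (Matrix.fromBlocks (1 - r.e) 0 0 (Matrix.fromBlocks r.e 0 0 g)) := by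
    intro l g hg
    refine K0Q_trans (K0Q_comm hg (by simp)) ?_
    refine K0Q_trans (K0Q_sum (K0Q_symm (K0Q_compl r.idem)) (K0Q_refl hg)) ?_
    exact K0Q_assoc hr r.idem hg
  have h4 := K0Q_trans (key n e he) (K0Q_trans (K0Q_sum (K0Q_refl hr) h3) (K0Q_symm (key m f hf)))
  obtain ⟨⟨x, y, hx, hy⟩, -, -⟩ := h4
  exact ⟨r.n, x, y, hx, hy⟩

end Pool.Agent.PV
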